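import Pool.Agent.V7H41.CC.Spec2

set_option autoImplicit false

open Finset

namespace Pool.Agent.V7H98.CC

open Pool.Agent.V7H41.CC

/-- the terms of the sum -/
noncomputable def rho (n m r : ℕ) : ℝ :=
  (7 * (n : ℝ)) ^ (r - 1) * ((m + 1).factorial : ℝ) * (r.factorial : ℝ) *
    ((m - r + 2).factorial : ℝ) / ((m + r).factorial : ℝ) ^ 2

theorem rho_pos {n : ℕ} (m r : ℕ) (hn : 1 ≤ n) : 0 < rho n m r := by
  unfold rho
  have : (0 : ℝ) < n := by exact_mod_cast hn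
  positivity

theorem rho_succ (n k r : ℕ) (hr : 1 ≤ r) :
    rho n (r + 1 + k) (r + 1) * (((k : ℝ) + 3) * (2 * (r : ℝ) + k + 2) ^ 2) =
      rho n (r + 1 + k) r * (7 * n * ((r : ℝ) + 1)) := by
  obtain ⟨s, rfl⟩ : ∃ s, r = s + 1 := ⟨r - 1, by omega⟩
  unfold rho
  have e1 : s + 1 + 1 + k - (s + 1 + 1) + 2 = k + 2 := by omega
  have e2 : s + 1 + 1 + k - (s + 1) + 2 = (k + 2) + 1 := by omega
  have e3 : s + 1 + 1 + k + (s + 1 + 1) = (s + 1 + 1 + k + (s + 1)) + 1 := by omega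
  rw [e1, e2, e3, Nat.add_sub_cancel, Nat.add_sub_cancel]
  have f1 : (((s + 1 + 1 + k + (s + 1)) + 1).factorial : ℝ) =
      (2 * (s : ℝ) + k + 4) * ((s + 1 + 1 + k + (s + 1)).factorial : ℝ) := by
    rw [Nat.factorial_succ]
    push_cast
    ring
  have f2 : (((k + 2) + 1).factorial : ℝ) = ((k : ℝ) + 3) * ((k + 2).factorial : ℝ) := by
    rw [Nat.factorial_succ]
    push_cast
    ring
  have f3 : ((s + 1 + 1).factorial : ℝ) = ((s : ℝ) + 2) * ((s + 1).factorial : ℝ) := by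
    rw [Nat.factorial_succ (s + 1)]
    push_cast
    ring
  rw [f1, f2, f3]
  have g1 : (((s + 1 + 1 + k + (s + 1)).factorial : ℝ)) ≠ 0 := by positivity
  have g2 : (2 * (s : ℝ) + k + 4) ≠ 0 := by positivity
  push_cast
  rw [pow_succ]
  field_simp
  ring

theorem rho_convex (n k r : ℕ) (hn : 1 ≤ n) (hr : 1 ≤ r) :
    rho n (r + 2 + k) (r + 1) ^ 2 ≤ rho n (r + 2 + k) r * rho n (r + 2 + k) (r + 2) := by
  have h1 := rho_succ n (k + 1) r hr
  have h2 := rho_succ n k (r + 1) (by omega)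
  rw [show r + 1 + (k + 1) = r + 2 + k by omega] at h1
  rw [show r + 1 + 1 + k = r + 2 + k by omega, show r + 1 + 1 = r + 2 by omega] at h2
  push_cast at h1 h2
  have px := rho_pos (r + 2 + k) r hn
  have py := rho_pos (r + 2 + k) (r + 1) hn
  have pz := rho_pos (r + 2 + k) (r + 2) hn
  generalize rho n (r + 2 + k) r = x at *
  generalize rho n (r + 2 + k) (r + 1) = y at *
  generalize rho n (r + 2 + k) (r + 2) = z at *
  have hn0 : (0 : ℝ) < n := by exact_mod_cast hn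
  have hr0 : (0 : ℝ) ≤ r := Nat.cast_nonneg r
  have hk0 : (0 : ℝ) ≤ k := Nat.cast_nonneg k
  obtain ⟨D, hD⟩ : ∃ D : ℝ, D = ((k : ℝ) + 1 + 3) * (2 * (r : ℝ) + (k + 1) + 2) ^ 2 := ⟨_, rfl⟩
  obtain ⟨N, hN⟩ : ∃ N : ℝ, N = 7 * (n : ℝ) * ((r : ℝ) + 1) := ⟨_, rfl⟩
  obtain ⟨D', hD'⟩ : ∃ D : ℝ, D = ((k : ℝ) + 3) * (2 * ((r : ℝ) + 1) + k + 2) ^ 2 := ⟨_, rfl⟩
  obtain ⟨N', hN'⟩ : ∃ N : ℝ, N = 7 * (n : ℝ) * ((r : ℝ) + 1 + 1) := ⟨_, rfl⟩
  rw [← hD, ← hN] at h1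
  rw [← hD', ← hN'] at h2
  have hN0 : 0 < N := by rw [hN]; positivity
  have hD'0 : 0 < D' := by rw [hD']; positivity
  have key : N * D' ≤ D * N' := by
    have e : D * N' - N * D' = 7 * n * (4 * r ^ 3 + 4 * r ^ 2 * k + 20 * r ^ 2 + 3 * r * k ^ 2 +
        21 * r * k + 36 * r + k ^ 3 + 9 * k ^ 2 + 26 * k + 24 : ℝ) := by
      rw [hD, hN, hD', hN']
      ring
    have e2 : 0 ≤ D * N' - N * D' := by
      rw [e]
      positivity
    linarith
  have h3 : y ^ 2 * (N * D') ≤ x * z * (N * D') := by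
    calc y ^ 2 * (N * D') ≤ y ^ 2 * (D * N') := by gcongr
      _ = (y * D) * (y * N') := by ring
      _ = (x * N) * (z * D') := by rw [h1, h2]
      _ = x * z * (N * D') := by ring
  exact le_of_mul_le_mul_right h3 (by positivity)

/-- a positive log-convex sequence is at most the maximum of its end terms -/
theorem logconvex_max (f : ℕ → ℝ) (a : ℕ) (hf : ∀ r, 0 < f r) (b : ℕ) (hab : a ≤ b)
    (h : ∀ r, a ≤ r → r + 2 ≤ b → f (r + 1) ^ 2 ≤ f r * f (r + 2)) :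
    ∀ r, a ≤ r → r ≤ b → f r ≤ max (f a) (f b) := by
  induction b, hab using Nat.le_induction with
  | base =>
    intro r h1 h2
    rw [show r = a by omega]
    exact le_max_left _ _
  | succ b hab ih =>
    have ih' := ih (fun r h1 h2 => h r h1 (by omega))
    have hb : f b ≤ max (f a) (f (b + 1)) := by
      rcases eq_or_lt_of_le hab with h1 | h1
      · rw [h1]
        exact le_max_left _ _
      · rcases le_or_gt (f b) (f (b + 1)) with h2 | h2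
        · exact h2.trans (le_max_right _ _)
        · have h3 := h (b - 1) (by omega) (by omega)
          rw [show b - 1 + 1 = b by omega, show b - 1 + 2 = b + 1 by omega] at h3
          have h4 : f b < f (b - 1) := by
            have h5 : f (b - 1) * f (b + 1) < f (b - 1) * f b := mul_lt_mul_of_pos_left h2 (hf _)
            have h6 : f b * f b < f (b - 1) * f b := by nlinarith
            exact lt_of_mul_lt_mul_right h6 (hf b).le
          have h5 := ih' (b - 1) (by omega) (by omega)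
          rcases le_max_iff.1 h5 with h6 | h6
          · exact (h4.le.trans h6).trans (le_max_left _ _)
          · linarith
    intro r h1 h2
    rcases Nat.lt_or_ge b r with h3 | h3
    · rw [show r = b + 1 by omega]
      exact le_max_right _ _
    · refine (ih' r h1 h3).trans (max_le (le_max_left _ _) hb)

theorem rho_le (n m : ℕ) (hn : 1 ≤ n) (hm : 3 ≤ m) (r : ℕ) (h3 : 3 ≤ r) (hr : r ≤ m) :
    rho n m r ≤ max (rho n m 3) (rho n m m) := by
  refine logconvex_max (rho n m) 3 (fun r => rho_pos m r hn) m hm (fun r h1 h2 => ?_) r h3 hr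
  obtain ⟨k, rfl⟩ : ∃ k, m = r + 2 + k := ⟨m - (r + 2), by omega⟩
  exact rho_convex n k r hn (by omega)

theorem rho_two (n m : ℕ) (hm : 3 ≤ m) :
    rho n m 2 = 14 * n / (((m : ℝ) + 2) ^ 2 * (m + 1)) := by
  unfold rho
  rw [show m - 2 + 2 = m by omega]
  have f1 : ((m + 2).factorial : ℝ) = ((m : ℝ) + 2) * (((m : ℝ) + 1) * (m.factorial : ℝ)) := by
    rw [Nat.factorial_succ, Nat.factorial_succ]
    push_cast
    ring
  have f2 : ((m + 1).factorial : ℝ) = ((m : ℝ) + 1) * (m.factorial : ℝ) := by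
    rw [Nat.factorial_succ]
    push_cast
    ring
  rw [f1, f2]
  have g : (m.factorial : ℝ) ≠ 0 := by positivity
  have g1 : (m : ℝ) + 1 ≠ 0 := by positivity
  have g2 : (m : ℝ) + 2 ≠ 0 := by positivity
  norm_num [Nat.factorial]
  field_simp
  ring

theorem rho_three (n m : ℕ) (hm : 3 ≤ m) :
    rho n m 3 = 294 * (n : ℝ) ^ 2 / (((m : ℝ) + 2) ^ 2 * (m + 1) * (m * (m + 3) ^ 2)) := by
  obtain ⟨k, rfl⟩ : ∃ k, m = 2 + 1 + k := ⟨m - 3, by omega⟩
  have h := rho_succ n k 2 (by norm_num)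
  rw [rho_two n _ hm] at h
  have g : (0 : ℝ) < ((k : ℝ) + 3) * (2 * ((2 : ℕ) : ℝ) + k + 2) ^ 2 := by positivity
  rw [← eq_div_iff g.ne'] at h
  have h' : rho n (2 + 1 + k) 3 = _ := h
  rw [h']
  push_cast
  have g1 : (2 + 1 + (k : ℝ)) ≠ 0 := by positivity
  have g2 : (2 + 1 + (k : ℝ) + 2) ≠ 0 := by positivity
  have g3 : (2 + 1 + (k : ℝ) + 1) ≠ 0 := by positivity
  have g4 : (2 + 1 + (k : ℝ) + 3) ≠ 0 := by positivity
  have g5 : ((k : ℝ) + 3) ≠ 0 := by positivity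
  have g6 : (2 * (2 : ℝ) + k + 2) ≠ 0 := by positivity
  rw [div_mul_eq_mul_div, div_div, div_eq_div_iff (by positivity) (by positivity)]
  ring

theorem rho_last (n m : ℕ) (hm : 3 ≤ m) (h4 : 4 * n ≤ m ^ 2) :
    rho n m m ≤ 5 * ((m : ℝ) + 1) * (0.81 : ℝ) ^ m := by
  have hm0 : (0 : ℝ) < m := by
    have : 0 < m := by omega
    exact_mod_cast this
  have h4' : 4 * (n : ℝ) ≤ (m : ℝ) ^ 2 := by exact_mod_cast h4
  have hn0 : (0 : ℝ) ≤ n := Nat.cast_nonneg n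
  -- the central binomial coefficient
  have hc : (4 : ℝ) ^ m * (m.factorial : ℝ) ^ 2 ≤ 2 * m * ((m + m).factorial : ℝ) := by
    have h1 := Nat.four_pow_le_two_mul_self_mul_centralBinom m (by omega)
    have h2 := Nat.choose_mul_factorial_mul_factorial (show m ≤ 2 * m by omega)
    rw [show 2 * m - m = m by omega] at h2
    have h3 : (4 : ℝ) ^ m ≤ 2 * m * ((2 * m).choose m : ℝ) := by
      have := h1
      unfold Nat.centralBinom at this
      exact_mod_cast this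
    have h5 : ((2 * m).choose m : ℝ) * (m.factorial : ℝ) * (m.factorial : ℝ) = ((m + m).factorial : ℝ) := by
      rw [← two_mul]
      exact_mod_cast h2
    calc (4 : ℝ) ^ m * (m.factorial : ℝ) ^ 2 ≤ 2 * m * ((2 * m).choose m : ℝ) * (m.factorial : ℝ) ^ 2 := by
          gcongr
      _ = 2 * m * (((2 * m).choose m : ℝ) * (m.factorial : ℝ) * (m.factorial : ℝ)) := by ring
      _ = _ := by rw [h5]
  have hexp : (m : ℝ) ^ m ≤ Real.exp m * (m.factorial : ℝ) := by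
    have := Real.pow_div_factorial_le_exp (m : ℝ) hm0.le m
    rwa [div_le_iff₀ (by positivity)] at this
  have he : Real.exp m ^ 2 * (7 : ℝ) ^ m ≤ (0.81 * 64) ^ m := by
    have h1 : Real.exp m = Real.exp 1 ^ m := by rw [← Real.exp_nat_mul, mul_one]
    rw [h1, ← pow_mul, mul_comm m 2, pow_mul, ← mul_pow]
    apply pow_le_pow_left₀ (by positivity)
    have h2 := Real.exp_one_lt_d9
    have h3 := Real.exp_pos 1
    nlinarith
  unfold rho
  rw [show m - m + 2 = 2 by omega, show (2 : ℕ).factorial = 2 from rfl]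
  have f2 : ((m + 1).factorial : ℝ) = ((m : ℝ) + 1) * (m.factorial : ℝ) := by
    rw [Nat.factorial_succ]
    push_cast
    ring
  rw [f2]
  have hF : (0 : ℝ) < (m.factorial : ℝ) := by positivity
  have hG : (0 : ℝ) < ((m + m).factorial : ℝ) := by positivity
  rw [div_le_iff₀ (by positivity)]
  obtain ⟨s, hs⟩ : ∃ s, m = s + 1 := ⟨m - 1, by omega⟩
  have hpow : (7 * (n : ℝ)) ^ (m - 1) * m ^ 2 * 4 ^ m ≤ 4 / 7 * (7 : ℝ) ^ m * (m : ℝ) ^ m * m ^ m := by
    have h1 : (7 * (n : ℝ)) ^ (m - 1) ≤ (7 / 4 * (m : ℝ) ^ 2) ^ (m - 1) := by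
      apply pow_le_pow_left₀ (by positivity)
      linarith
    calc (7 * (n : ℝ)) ^ (m - 1) * m ^ 2 * 4 ^ m ≤ (7 / 4 * (m : ℝ) ^ 2) ^ (m - 1) * m ^ 2 * 4 ^ m := by
          gcongr
      _ = 4 / 7 * (7 : ℝ) ^ m * (m : ℝ) ^ m * m ^ m := by
          have e : (4 : ℝ) ^ m = 4 ^ (m - 1) * 4 := by
            rw [← pow_succ, show m - 1 + 1 = m by omega]
          have e7 : (7 : ℝ) ^ m = 7 ^ (m - 1) * 7 := by
            rw [← pow_succ, show m - 1 + 1 = m by omega]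
          have em : (m : ℝ) ^ m = (m : ℝ) ^ (m - 1) * m := by
            rw [← pow_succ, show m - 1 + 1 = m by omega]
          rw [e, e7, em, mul_pow, div_pow]
          have h4 : (4 : ℝ) ^ (m - 1) ≠ 0 := by positivity
          field_simp
          ring
  -- combine
  have hG2 : (4 : ℝ) ^ m * 4 ^ m * ((m.factorial : ℝ) ^ 2 * (m.factorial : ℝ) ^ 2) ≤
      4 * m ^ 2 * ((m + m).factorial : ℝ) ^ 2 := by
    have := mul_le_mul hc hc (by positivity) (by positivity)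
    calc _ = (4 : ℝ) ^ m * (m.factorial : ℝ) ^ 2 * (4 ^ m * (m.factorial : ℝ) ^ 2) := by ring
      _ ≤ 2 * m * ((m + m).factorial : ℝ) * (2 * m * ((m + m).factorial : ℝ)) := this
      _ = _ := by ring
  have hM : (m : ℝ) ^ m * m ^ m ≤ Real.exp m ^ 2 * (m.factorial : ℝ) ^ 2 := by
    have := mul_le_mul hexp hexp (by positivity) (by positivity)
    calc _ ≤ _ := this
      _ = _ := by ring
  have hfin : (7 * (n : ℝ)) ^ (m - 1) * m ^ 2 * 4 ^ m ≤ 4 / 7 * (0.81 * 64) ^ m * (m.factorial : ℝ) ^ 2 := by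
    calc _ ≤ 4 / 7 * (7 : ℝ) ^ m * ((m : ℝ) ^ m * m ^ m) := by
          rw [← mul_assoc (4 / 7 * (7 : ℝ) ^ m)]
          exact hpow
      _ ≤ 4 / 7 * (7 : ℝ) ^ m * (Real.exp m ^ 2 * (m.factorial : ℝ) ^ 2) := by gcongr
      _ = 4 / 7 * (Real.exp m ^ 2 * 7 ^ m) * (m.factorial : ℝ) ^ 2 := by ring
      _ ≤ _ := by gcongr
  have h64 : (0.81 * 64 : ℝ) ^ m = 0.81 ^ m * (4 ^ m * 4 ^ m * 4 ^ m) := by
    rw [← mul_pow, ← mul_pow, ← mul_pow]
    norm_num
  rw [h64] at hfin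
  have hfin2 : (7 * (n : ℝ)) ^ (m - 1) * m ^ 2 ≤ 4 / 7 * (0.81 ^ m * (4 ^ m * 4 ^ m)) * (m.factorial : ℝ) ^ 2 := by
    have h4p : (0 : ℝ) < 4 ^ m := by positivity
    have : (7 * (n : ℝ)) ^ (m - 1) * m ^ 2 * 4 ^ m ≤
        4 / 7 * (0.81 ^ m * (4 ^ m * 4 ^ m)) * (m.factorial : ℝ) ^ 2 * 4 ^ m := by
      calc _ ≤ _ := hfin
        _ = _ := by ring
    exact le_of_mul_le_mul_right this h4p
  have hm2 : (0 : ℝ) < (m : ℝ) ^ 2 := by positivity
  have goal2 : (7 * (n : ℝ)) ^ (m - 1) * (((m : ℝ) + 1) * (m.factorial : ℝ)) * (m.factorial : ℝ) * ((2 : ℕ) : ℝ) * m ^ 2 ≤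
      5 * ((m : ℝ) + 1) * 0.81 ^ m * ((m + m).factorial : ℝ) ^ 2 * m ^ 2 := by
    calc _ = (7 * (n : ℝ)) ^ (m - 1) * m ^ 2 * (2 * ((m : ℝ) + 1) * (m.factorial : ℝ) ^ 2) := by push_cast; ring
      _ ≤ 4 / 7 * (0.81 ^ m * (4 ^ m * 4 ^ m)) * (m.factorial : ℝ) ^ 2 * (2 * ((m : ℝ) + 1) * (m.factorial : ℝ) ^ 2) := by
          gcongr
      _ = 8 / 7 * ((m : ℝ) + 1) * 0.81 ^ m * (4 ^ m * 4 ^ m * ((m.factorial : ℝ) ^ 2 * (m.factorial : ℝ) ^ 2)) := by ring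
      _ ≤ 8 / 7 * ((m : ℝ) + 1) * 0.81 ^ m * (4 * m ^ 2 * ((m + m).factorial : ℝ) ^ 2) := by gcongr
      _ = 32 / 7 * (((m : ℝ) + 1) * 0.81 ^ m * ((m + m).factorial : ℝ) ^ 2 * m ^ 2) := by ring
      _ ≤ 5 * (((m : ℝ) + 1) * 0.81 ^ m * ((m + m).factorial : ℝ) ^ 2 * m ^ 2) := by
          gcongr
          norm_num
      _ = _ := by ring
  exact le_of_mul_le_mul_right goal2 hm2

theorem t_RHO : S_RHO := by
  -- the exponential factor
  have hlim : Filter.Tendsto (fun m : ℕ => (m : ℝ) ^ 4 * (0.81 : ℝ) ^ m) Filter.atTop (nhds 0) :=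
    tendsto_pow_const_mul_const_pow_of_abs_lt_one 4 (by norm_num [abs_lt])
  obtain ⟨M, hM⟩ := Filter.eventually_atTop.1 (hlim.eventually (gt_mem_nhds (show (0 : ℝ) < 1 by norm_num)))
  refine ⟨M ^ 2 + 4, ?_⟩
  intro n m hn h4 hmn
  have hn1 : 1 ≤ n := by omega
  have hm3 : 3 ≤ m := by nlinarith
  have hmM : M ≤ m := by nlinarith
  have hm0 : (0 : ℝ) < m := by
    have : 0 < m := by omega
    exact_mod_cast this
  have hm3' : (3 : ℝ) ≤ m := by exact_mod_cast hm3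
  have hn0 : (0 : ℝ) < n := by exact_mod_cast hn1
  have h4' : 4 * (n : ℝ) ≤ (m : ℝ) ^ 2 := by exact_mod_cast h4
  have hmn' : (m : ℝ) < n := by exact_mod_cast hmn
  have hsum : ∑ r ∈ Icc 2 m, (7 * (n : ℝ)) ^ (r - 1) * ((m + 1).factorial : ℝ) * (r.factorial : ℝ) *
      ((m - r + 2).factorial : ℝ) / ((m + r).factorial : ℝ) ^ 2 = ∑ r ∈ Icc 2 m, rho n m r := rfl
  rw [hsum]
  have hsplit : ∑ r ∈ Icc 2 m, rho n m r = rho n m 2 + ∑ r ∈ Icc 3 m, rho n m r := by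
    have : Icc 2 m = insert 2 (Icc 3 m) := by
      ext x
      simp only [mem_Icc, mem_insert]
      omega
    rw [this, sum_insert (by simp)]
  have hle : ∑ r ∈ Icc 3 m, rho n m r ≤ m * (rho n m 3 + rho n m m) := by
    have h1 : ∀ r ∈ Icc 3 m, rho n m r ≤ rho n m 3 + rho n m m := by
      intro r hr
      rw [mem_Icc] at hr
      refine (rho_le n m hn1 hm3 r hr.1 hr.2).trans (max_le ?_ ?_)
      · linarith [rho_pos m m hn1]
      · linarith [rho_pos m 3 hn1]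
    refine (sum_le_card_nsmul _ _ _ h1).trans ?_
    rw [nsmul_eq_mul, Nat.card_Icc]
    have h2 : ((m + 1 - 3 : ℕ) : ℝ) ≤ m := by
      have : m + 1 - 3 ≤ m := by omega
      exact_mod_cast this
    have h3 := rho_pos m 3 hn1
    have h5 := rho_pos m m hn1
    gcongr
  have b2 : rho n m 2 ≤ 14 * n / (m : ℝ) ^ 3 := by
    rw [rho_two n m hm3]
    apply div_le_div_of_nonneg_left (by positivity) (by positivity)
    nlinarith [sq_nonneg (m : ℝ)]
  have b3 : m * rho n m 3 ≤ 74 * n / (m : ℝ) ^ 3 := by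
    rw [rho_three n m hm3, mul_div_assoc', div_le_div_iff₀ (by positivity) (by positivity)]
    have e1 : (m : ℝ) * (294 * (n : ℝ) ^ 2) * (m : ℝ) ^ 3 = 294 / 4 * (n * (4 * n)) * (m : ℝ) ^ 4 := by ring
    have e2 : 294 / 4 * (n * (4 * n)) * (m : ℝ) ^ 4 ≤ 294 / 4 * (n * (m : ℝ) ^ 2) * (m : ℝ) ^ 4 := by
      gcongr
    have e3 : 294 / 4 * (n * (m : ℝ) ^ 2) * (m : ℝ) ^ 4 ≤ 74 * n * (m : ℝ) ^ 6 := by
      have : 294 / 4 * (n * (m : ℝ) ^ 2) * (m : ℝ) ^ 4 = 294 / 4 * (n * (m : ℝ) ^ 6) := by ring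
      rw [this]
      have : (0 : ℝ) ≤ n * (m : ℝ) ^ 6 := by positivity
      nlinarith
    have e4 : (m : ℝ) ^ 6 ≤ ((m : ℝ) + 2) ^ 2 * (m + 1) * (m * (m + 3) ^ 2) := by
      calc (m : ℝ) ^ 6 = (m : ℝ) ^ 2 * m * (m * m ^ 2) := by ring
        _ ≤ ((m : ℝ) + 2) ^ 2 * (m + 1) * (m * (m + 3) ^ 2) := by
          gcongr <;> linarith
    calc _ = _ := e1
      _ ≤ _ := e2
      _ ≤ _ := e3
      _ ≤ _ := by gcongr
  have bm : m * rho n m m ≤ 10 * n / (m : ℝ) ^ 3 := by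
    have h1 := rho_last n m hm3 h4
    have h2 := (hM m hmM).le
    rw [le_div_iff₀ (by positivity)]
    have h3 : (0 : ℝ) < 0.81 ^ m := by positivity
    calc m * rho n m m * (m : ℝ) ^ 3 ≤ m * (5 * ((m : ℝ) + 1) * (0.81 : ℝ) ^ m) * (m : ℝ) ^ 3 := by gcongr
      _ ≤ m * (5 * (2 * (m : ℝ)) * (0.81 : ℝ) ^ m) * (m : ℝ) ^ 3 := by
          gcongr
          linarith
      _ = 10 * m * ((m : ℝ) ^ 4 * (0.81 : ℝ) ^ m) := by ring
      _ ≤ 10 * m * 1 := by gcongr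
      _ ≤ 10 * n := by linarith
  have htot : rho n m 2 + m * (rho n m 3 + rho n m m) ≤ 100 * n / (m : ℝ) ^ 3 := by
    have e : 100 * (n : ℝ) / (m : ℝ) ^ 3 = 14 * n / (m : ℝ) ^ 3 + 74 * n / (m : ℝ) ^ 3 +
        10 * n / (m : ℝ) ^ 3 + 2 * n / (m : ℝ) ^ 3 := by ring
    have e2 : 0 ≤ 2 * (n : ℝ) / (m : ℝ) ^ 3 := by positivity
    rw [e]
    nlinarith
  rw [hsplit]
  linarith

end Pool.Agent.V7H98.CC
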