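import Pool.Agent.V7H41.CC.Spec

set_option autoImplicit false

namespace Pool.Agent.V7H98.CC

open Pool.Agent.V7H41.CC

/-- crude Stirling: `m! ≤ e m (m / e)^m` -/
theorem log_factorial_le (m : ℕ) (hm : 1 ≤ m) :
    Real.log (m.factorial : ℝ) ≤ 1 + Real.log m + m * Real.log m - m := by
  induction m, hm using Nat.le_induction with
  | base => simp
  | succ k hk ih =>
    have hk0 : (0 : ℝ) < k := by exact_mod_cast hk
    have h1 : Real.log ((k + 1).factorial : ℝ) = Real.log ((k : ℝ) + 1) + Real.log (k.factorial : ℝ) := by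
      rw [Nat.factorial_succ]
      push_cast
      rw [Real.log_mul (by positivity) (by positivity)]
    have h2 : 1 - (((k : ℝ) + 1) / k)⁻¹ ≤ Real.log (((k : ℝ) + 1) / k) :=
      Real.one_sub_inv_le_log_of_pos (by positivity)
    rw [Real.log_div (by positivity) (by positivity), inv_div] at h2
    have h3 : 1 ≤ ((k : ℝ) + 1) * (Real.log ((k : ℝ) + 1) - Real.log k) := by
      have h4 := mul_le_mul_of_nonneg_left h2 (by positivity : (0 : ℝ) ≤ (k : ℝ) + 1)
      have h5 : ((k : ℝ) + 1) * (1 - (k : ℝ) / ((k : ℝ) + 1)) = 1 := by field_simp; ring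
      linarith
    rw [h1]
    push_cast
    nlinarith

theorem t_SINL : S_SINL := by
  refine ⟨1, 5, ?_⟩
  intro t _ ht n m hn hm
  have ht1 : (1 : ℝ) ≤ t := by exact_mod_cast ht
  have hlt : 0 ≤ Real.log (t : ℝ) := Real.log_nonneg ht1
  have hm100 : 100 ≤ m := by omega
  have hmR : (100 : ℝ) ≤ m := by exact_mod_cast hm100
  have hnm : n = m ^ 2 := by rw [hn, hm]
  have hlogn : Real.log (n : ℝ) = 2 * Real.log m := by
    rw [hnm]
    push_cast
    rw [Real.log_pow]
    norm_num
  have hjn : m + 1 ≤ n := by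
    rw [hnm]
    nlinarith
  -- lower bound of the binomial coefficient
  have h1 : (n + 1 - (m + 1)) ^ (m + 1) ≤ n.descFactorial (m + 1) :=
    Nat.pow_sub_le_descFactorial n (m + 1)
  have h2 : n.descFactorial (m + 1) = (m + 1).factorial * n.choose (m + 1) :=
    Nat.descFactorial_eq_factorial_mul_choose n (m + 1)
  have h3 : n + 1 - (m + 1) = m * (m - 1) := by
    rw [hnm]
    obtain ⟨k, rfl⟩ : ∃ k, m = k + 1 := ⟨m - 1, by omega⟩
    simp only [Nat.add_sub_cancel]
    have : (k + 1) ^ 2 + 1 = (k + 1) * k + (k + 1 + 1) := by ring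
    omega
  rw [h3, h2] at h1
  have h4 : ((m : ℝ) * ((m : ℝ) - 1)) ^ (m + 1) ≤ ((m + 1).factorial : ℝ) * (n.choose (m + 1) : ℝ) := by
    have := h1
    have h5 : (((m * (m - 1)) ^ (m + 1) : ℕ) : ℝ) ≤ (((m + 1).factorial * n.choose (m + 1) : ℕ) : ℝ) := by
      exact_mod_cast this
    push_cast [Nat.cast_sub (show 1 ≤ m by omega)] at h5
    exact h5
  have hc : (0 : ℝ) < (n.choose (m + 1) : ℝ) := by exact_mod_cast Nat.choose_pos hjn
  have hf : (0 : ℝ) < ((m + 1).factorial : ℝ) := by positivity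
  have hm0 : (0 : ℝ) < m := by linarith
  have hm1 : (0 : ℝ) < (m : ℝ) - 1 := by linarith
  have h6 := Real.log_le_log (by positivity) h4
  rw [Real.log_pow, Real.log_mul hf.ne' hc.ne', Real.log_mul hm0.ne' hm1.ne'] at h6
  have h7 : Real.log ((m + 1).factorial : ℝ) = Real.log ((m : ℝ) + 1) + Real.log (m.factorial : ℝ) := by
    rw [Nat.factorial_succ]
    push_cast
    rw [Real.log_mul (by positivity) (by positivity)]
  have h8 := log_factorial_le m (by omega)
  -- log (m - 1)
  have h9 : 1 - (((m : ℝ) - 1) / m)⁻¹ ≤ Real.log (((m : ℝ) - 1) / m) :=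
    Real.one_sub_inv_le_log_of_pos (by positivity)
  rw [Real.log_div hm1.ne' hm0.ne', inv_div] at h9
  have h10 : -3 ≤ ((m : ℝ) + 1) * (Real.log ((m : ℝ) - 1) - Real.log m) := by
    have h11 := mul_le_mul_of_nonneg_left h9 (by positivity : (0 : ℝ) ≤ (m : ℝ) + 1)
    have h12 : -3 ≤ ((m : ℝ) + 1) * (1 - (m : ℝ) / ((m : ℝ) - 1)) := by
      have e : ((m : ℝ) + 1) * (1 - (m : ℝ) / ((m : ℝ) - 1)) = -(((m : ℝ) + 1) / ((m : ℝ) - 1)) := by
        field_simp
        ring
      rw [e, neg_le_neg_iff, div_le_iff₀ hm1]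
      linarith
    linarith
  have h13 : Real.log ((m : ℝ) + 1) ≤ Real.log m + 1 := by
    have e : (m : ℝ) + 1 ≤ m * 2 := by linarith
    have h14 := Real.log_le_log (by positivity) e
    rw [Real.log_mul hm0.ne' (by norm_num)] at h14
    have := Real.log_two_lt_d9
    linarith
  push_cast at h6
  rw [hlogn]
  rw [h7] at h6
  nlinarith

end Pool.Agent.V7H98.CC
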