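import Pool.Agent.V7H41.CC.Spec3
import Pool.Agent.V7H98.CC.SINL

set_option autoImplicit false

namespace Pool.Agent.V7H98.CC

open Pool.Agent.V7H41.CC

theorem t_SINL3 : S_SINL3 := by
  refine ⟨1, 5, ?_⟩
  intro t _ ht n m hn _ hm
  have ht1 : (1 : ℝ) ≤ t := by exact_mod_cast ht
  have hlt : 0 ≤ Real.log (t : ℝ) := Real.log_nonneg ht1
  have hm100 : 100 ≤ m := by omega
  have hmR : (100 : ℝ) ≤ m := by exact_mod_cast hm100
  have hnm : m ^ 2 ≤ n := by rw [hm]; exact hn
  have hnmR : (m : ℝ) ^ 2 ≤ n := by exact_mod_cast hnm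
  have hjn : m + 1 ≤ n := by nlinarith
  have hm0 : (0 : ℝ) < m := by linarith
  have hm1 : (0 : ℝ) < (m : ℝ) - 1 := by linarith
  have hn0 : (0 : ℝ) < n := by nlinarith
  have hnm0 : (0 : ℝ) < (n : ℝ) - m := by nlinarith
  have hlogn : 2 * Real.log m ≤ Real.log (n : ℝ) := by
    have := Real.log_le_log (by positivity) hnmR
    rw [Real.log_pow] at this
    exact_mod_cast this
  -- lower bound of the binomial coefficient
  have h1 : (n + 1 - (m + 1)) ^ (m + 1) ≤ n.descFactorial (m + 1) :=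
    Nat.pow_sub_le_descFactorial n (m + 1)
  have h2 : n.descFactorial (m + 1) = (m + 1).factorial * n.choose (m + 1) :=
    Nat.descFactorial_eq_factorial_mul_choose n (m + 1)
  have h3 : n + 1 - (m + 1) = n - m := by omega
  rw [h3, h2] at h1
  have h4 : ((n : ℝ) - m) ^ (m + 1) ≤ ((m + 1).factorial : ℝ) * (n.choose (m + 1) : ℝ) := by
    have h5 : (((n - m) ^ (m + 1) : ℕ) : ℝ) ≤ (((m + 1).factorial * n.choose (m + 1) : ℕ) : ℝ) := by
      exact_mod_cast h1
    push_cast [Nat.cast_sub (show m ≤ n by omega)] at h5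
    exact h5
  have hc : (0 : ℝ) < (n.choose (m + 1) : ℝ) := by exact_mod_cast Nat.choose_pos hjn
  have hf : (0 : ℝ) < ((m + 1).factorial : ℝ) := by positivity
  have h6 := Real.log_le_log (by positivity) h4
  rw [Real.log_pow, Real.log_mul hf.ne' hc.ne'] at h6
  have h7 : Real.log ((m + 1).factorial : ℝ) = Real.log ((m : ℝ) + 1) + Real.log (m.factorial : ℝ) := by
    rw [Nat.factorial_succ]
    push_cast
    rw [Real.log_mul (by positivity) (by positivity)]
  have h8 := log_factorial_le m (by omega)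
  -- log (n - m)
  have h9 : 1 - (((n : ℝ) - m) / n)⁻¹ ≤ Real.log (((n : ℝ) - m) / n) :=
    Real.one_sub_inv_le_log_of_pos (by positivity)
  rw [Real.log_div hnm0.ne' hn0.ne', inv_div] at h9
  have h10 : -3 ≤ ((m : ℝ) + 1) * (Real.log ((n : ℝ) - m) - Real.log n) := by
    have h11 := mul_le_mul_of_nonneg_left h9 (by positivity : (0 : ℝ) ≤ (m : ℝ) + 1)
    have h12 : -3 ≤ ((m : ℝ) + 1) * (1 - (n : ℝ) / ((n : ℝ) - m)) := by
      have e : ((m : ℝ) + 1) * (1 - (n : ℝ) / ((n : ℝ) - m)) = -((((m : ℝ) + 1) * m) / ((n : ℝ) - m)) := by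
        field_simp
        ring
      rw [e, neg_le_neg_iff, div_le_iff₀ hnm0]
      nlinarith
    linarith
  have h13 : Real.log ((m : ℝ) + 1) ≤ Real.log m + 1 := by
    have e : (m : ℝ) + 1 ≤ m * 2 := by linarith
    have h14 := Real.log_le_log (by positivity) e
    rw [Real.log_mul hm0.ne' (by norm_num)] at h14
    have := Real.log_two_lt_d9
    linarith
  push_cast at h6
  rw [h7] at h6
  nlinarith

end Pool.Agent.V7H98.CC
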